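import Pool.Agent.V11237.WPL

/-!
The WPL tree algorithm is not `O(log n)`-competitive: its competitive ratio on `n = 2 m + 1` keys is
at least `n / (4 (1 + log n))`.
-/

set_option autoImplicit false

open Pool.Agent.V11237.WPL

theorem Pool.Agent.Results.MP_69b7b0_lc.NotLogCompetitive.result :
    (∀ C : ℝ, ∃ (n : ℕ) (T₀ : BT), IsBST n T₀ ∧ ∃ σ : List ℕ,
      (∀ x ∈ σ, 1 ≤ x ∧ x ≤ n) ∧
        C * Real.log n * opt T₀ σ + C * n < wplCost (fun _ => 0) T₀ σ) ∧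
    (∀ m : ℕ, 1 ≤ m → ∃ T₀ : BT, IsBST (2 * m + 1) T₀ ∧ ∀ a : ℝ, ∃ σ : List ℕ,
      (∀ x ∈ σ, 1 ≤ x ∧ x ≤ 2 * m + 1) ∧
        ((2 * m + 1 : ℕ) : ℝ) / (4 * (1 + Nat.log 2 (2 * m + 1) : ℕ)) * opt T₀ σ + a <
          wplCost (fun _ => 0) T₀ σ) := by
  have h2 : ∀ m : ℕ, 1 ≤ m → ∃ T₀ : BT, IsBST (2 * m + 1) T₀ ∧ ∀ a : ℝ, ∃ σ : List ℕ,
      (∀ x ∈ σ, 1 ≤ x ∧ x ≤ 2 * m + 1) ∧
        ((2 * m + 1 : ℕ) : ℝ) / (4 * (1 + Nat.log 2 (2 * m + 1) : ℕ)) * opt T₀ σ + a <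
          wplCost (fun _ => 0) T₀ σ :=
    fun m hm => ⟨cat 0 m, isBST_cat m, dynamic_main m hm⟩
  refine ⟨fun C => ?_, h2⟩
  obtain ⟨m, hm, hc⟩ := ratio_large |C|
  obtain ⟨T, hT, hT'⟩ := h2 m hm
  obtain ⟨σ, hσ, hσ'⟩ := hT' (C * (2 * m + 1 : ℕ))
  refine ⟨2 * m + 1, T, hT, σ, hσ, lt_of_le_of_lt ?_ hσ'⟩
  have hlog : 0 ≤ Real.log (2 * m + 1 : ℕ) := Real.log_natCast_nonneg _
  have h3 : C * Real.log (2 * m + 1 : ℕ) ≤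
      ((2 * m + 1 : ℕ) : ℝ) / (4 * (1 + Nat.log 2 (2 * m + 1) : ℕ)) := by
    have h4 := le_abs_self C
    have h5 := abs_nonneg C
    refine le_trans ?_ hc
    nlinarith
  have h6 : (0 : ℝ) ≤ opt T σ := Nat.cast_nonneg _
  have := mul_le_mul_of_nonneg_right h3 h6
  linarith
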